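import Pool.Agent.Helper85_CYD.St2

/-! # CYD: the numerical contradiction -/

set_option autoImplicit false

namespace Pool.Agent.CYD.H38

open Pool.Agent.CYD

theorem num : NumStmt := by
  intro p m N x y hpm hm hodd hx hy hN hxy hpx hpy
  obtain ⟨s, hs⟩ := hodd
  have hφ : m.totient ≤ m := Nat.totient_le m
  have hms : m ≤ s := by nlinarith
  have hs1 : 1 ≤ s := by omega
  have hp0 : (0 : ℚ) < p := by
    have : 0 < p := by omega
    exact_mod_cast this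
  have hm0 : (0 : ℚ) < m := by
    have : 0 < m := by omega
    exact_mod_cast this
  have hy1 : y ≤ (2 * (m : ℚ)) ^ N := by
    have h1 : (p : ℚ) ^ N * y ≤ (p : ℚ) ^ N * (2 * (m : ℚ)) ^ N := by
      calc (p : ℚ) ^ N * y ≤ 2 ^ N * x * y := mul_le_mul_of_nonneg_right hpx hy
        _ = 2 ^ N * (x * y) := by ring
        _ ≤ 2 ^ N * ((p * m : ℕ) : ℚ) ^ N := mul_le_mul_of_nonneg_left hxy (by positivity)
        _ = (p : ℚ) ^ N * (2 * (m : ℚ)) ^ N := by push_cast; ring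
    exact le_of_mul_le_mul_left h1 (by positivity)
  have hp1 : p - 1 = 2 * s := by omega
  have h2 : y ^ (p - 1) ≤ ((2 * (m : ℚ)) ^ (2 * s)) ^ N := by
    rw [hp1]
    calc y ^ (2 * s) ≤ ((2 * (m : ℚ)) ^ N) ^ (2 * s) := pow_le_pow_left₀ hy hy1 _
      _ = ((2 * (m : ℚ)) ^ (2 * s)) ^ N := by rw [← pow_mul, ← pow_mul, mul_comm N (2 * s)]
  have h3 : (2 * (m : ℚ)) ^ (2 * s) < (p : ℚ) ^ s := by
    have h4 : (3 * (2 * (m : ℚ)) ^ 2) ≤ p := by
      have : ((12 * m ^ 2 : ℕ) : ℚ) ≤ p := by exact_mod_cast hpm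
      push_cast at this
      linarith
    have h5 : (3 * (2 * (m : ℚ)) ^ 2) ^ s ≤ (p : ℚ) ^ s := pow_le_pow_left₀ (by positivity) h4 _
    have h6 : (1 : ℚ) < 3 ^ s := one_lt_pow₀ (by norm_num) (by omega)
    have h7 : (0 : ℚ) < (2 * (m : ℚ)) ^ (2 * s) := by positivity
    calc (2 * (m : ℚ)) ^ (2 * s) < 3 ^ s * (2 * (m : ℚ)) ^ (2 * s) := by nlinarith
      _ = (3 * (2 * (m : ℚ)) ^ 2) ^ s := by rw [mul_pow 3 ((2 * (m : ℚ)) ^ 2) s, ← pow_mul]
      _ ≤ (p : ℚ) ^ s := h5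
  have h4 : (p : ℚ) ^ s ≤ (p : ℚ) ^ (p - 1 - m.totient) := by
    refine pow_le_pow_right₀ ?_ (by omega)
    have : 1 ≤ p := by omega
    exact_mod_cast this
  have h5 : ((2 * (m : ℚ)) ^ (2 * s)) ^ N < ((p : ℚ) ^ (p - 1 - m.totient)) ^ N :=
    pow_lt_pow_left₀ (lt_of_lt_of_le h3 h4) (by positivity) (by omega)
  rw [← pow_mul (p : ℚ)] at h5
  exact absurd (lt_of_lt_of_le h5 (hpy.trans h2)) (lt_irrefl _)

end Pool.Agent.CYD.H38
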